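import Pool.Agent.helper73.SPV.Spec

/-! # sp:PBA (MP_a2a22c_al): basic properties of `PB` -/

set_option autoImplicit false

namespace Pool.Agent.SPV

open Matrix Module Pool.Agent.SHL Pool.Agent.H48SL

theorem PBA_mono {G : Type} [Group G] : ∀ (N : ℕ) (S S' : Set G), S ⊆ S' → PB N S' → PB N S
  | 0, _, _, h, h' => Set.Finite.subset h' h
  | _ + 1, _, _, h, ⟨F, g, T, hF, hT, hx⟩ => ⟨F, g, T, hF, hT, fun x hxS => hx x (h hxS)⟩

theorem PBA_left {G : Type} [Group G] (N : ℕ) (F S : Set G) (hF : F.Finite) (hS : PB N S) :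
    PB N {x | ∃ f ∈ F, ∃ s ∈ S, x = f * s} := by
  cases N with
  | zero =>
    have hS' : S.Finite := hS
    show Set.Finite _
    refine ((hF.prod hS').image fun q : G × G => q.1 * q.2).subset ?_
    rintro x ⟨f, hf, s, hs, rfl⟩
    exact ⟨(f, s), ⟨hf, hs⟩, rfl⟩
  | succ N =>
    obtain ⟨F', g, T, hF', hT, hx⟩ := hS
    refine ⟨(fun q : G × G => q.1 * q.2) '' (F ×ˢ F'), g, T, (hF.prod hF').image _, hT, ?_⟩
    rintro x ⟨f, hf, s, hs, rfl⟩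
    obtain ⟨f', hf', m, t, ht, rfl⟩ := hx s hs
    exact ⟨f * f', ⟨(f, f'), ⟨hf, hf'⟩, rfl⟩, m, t, ht, by group⟩

theorem PBA_mul {G : Type} [Group G] : ∀ (a b : ℕ) (S T : Set G), PB a S → PB b T →
    PB (a + b) {x | ∃ s ∈ S, ∃ t ∈ T, x = s * t}
  | 0, b, S, T, hS, hT => by
    rw [Nat.zero_add]
    exact PBA_left b S T hS hT
  | a + 1, b, S, T, hS, hT => by
    obtain ⟨F, g, T₀, hF, hT₀, hx⟩ := hS
    rw [Nat.succ_add]
    refine ⟨F, g, {x | ∃ s ∈ T₀, ∃ t ∈ T, x = s * t}, hF, PBA_mul a b T₀ T hT₀ hT, ?_⟩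
    rintro x ⟨s, hs, t, ht, rfl⟩
    obtain ⟨f, hf, m, t₀, ht₀, rfl⟩ := hx s hs
    exact ⟨f, hf, m, t₀ * t, ⟨t₀, ht₀, t, ht, rfl⟩, by group⟩

theorem PBA_image {G : Type} [Group G] (G' : Type) [Group G'] (φ : G →* G') :
    ∀ (N : ℕ) (S : Set G), PB N S → PB N (φ '' S)
  | 0, _, h => Set.Finite.image φ h
  | N + 1, S, ⟨F, g, T, hF, hT, hx⟩ => by
    refine ⟨φ '' F, φ g, φ '' T, hF.image φ, PBA_image G' φ N T hT, ?_⟩
    rintro _ ⟨s, hs, rfl⟩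
    obtain ⟨f, hf, m, t, ht, rfl⟩ := hx s hs
    exact ⟨φ f, ⟨f, hf, rfl⟩, m, φ t, ⟨t, ht, rfl⟩, by rw [map_mul, map_mul, map_zpow]⟩

theorem PBA_lift {G : Type} [Group G] (G' : Type) [Group G'] (φ : G →* G')
    (hφ : Function.Surjective φ) : ∀ (N : ℕ) (S' : Set G'), PB N S' →
      ∃ S : Set G, PB N S ∧ S' ⊆ φ '' S
  | 0, S', h => by
    refine ⟨Function.surjInv hφ '' S', Set.Finite.image _ h, fun x hx => ?_⟩
    exact ⟨Function.surjInv hφ x, ⟨x, hx, rfl⟩, Function.surjInv_eq hφ x⟩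
  | N + 1, S', ⟨F, g, T, hF, hT, hx⟩ => by
    obtain ⟨T₁, hT₁, hTT⟩ := PBA_lift G' φ hφ N T hT
    refine ⟨{x | ∃ f ∈ Function.surjInv hφ '' F, ∃ m : ℤ, ∃ t ∈ T₁,
      x = f * (Function.surjInv hφ g) ^ m * t},
      ⟨Function.surjInv hφ '' F, Function.surjInv hφ g, T₁, hF.image _, hT₁, fun x hx => hx⟩, ?_⟩
    intro s hs
    obtain ⟨f, hf, m, t, ht, rfl⟩ := hx s hs
    obtain ⟨t₁, ht₁, rfl⟩ := hTT ht
    refine ⟨Function.surjInv hφ f * (Function.surjInv hφ g) ^ m * t₁,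
      ⟨_, ⟨f, hf, rfl⟩, m, t₁, ht₁, rfl⟩, ?_⟩
    rw [map_mul, map_mul, map_zpow, Function.surjInv_eq hφ, Function.surjInv_eq hφ]

theorem PBA : PBA_stmt := fun _ _ =>
  ⟨PBA_mono, PBA_left, PBA_mul, fun G' _ φ N S h => PBA_image G' φ N S h,
    fun G' _ φ hφ N S' h => PBA_lift G' φ hφ N S' h⟩

end Pool.Agent.SPV
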